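import Pool.Agent.Helper53.UR.Goals
import Pool.Agent.Helper53.CTG.All

/-!
# PROJECT UR, packet FB: bounds for the registers
-/

set_option autoImplicit false

namespace Pool.Agent.Helper51.UR

open Pool.Agent.Helper1.TE (Gad app cif NumMach codeB USPACE NUnamb NStep NTM)
open Pool.Agent.Helper65.LinSpace (dig nrec ifz eq01 le01 lt01 Ctx LS num)
open Pool.Agent.Helper53.CTG (De De.k De.m De.e De.f De.v De.i De.T sub root Nt Hb Et Eb Fb Gb Pb
  bigT bigX bigS bigA gadC ev op runs toF dec WF TabOK)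
open Pool.Agent.Helper53.UR
open Pool.Agent.Helper16.CTG (enc_nat_le enc_prod_le)

theorem enc_zb {β : Type} [Ctx β] (i : ℕ) : Ctx.enc (zb : β) i = 0 := by
  show Ctx.enc (Ctx.dec fun _ => 0 : β) i = 0
  rw [Ctx.enc_dec]
  show (if _ then _ else _) = _
  split_ifs <;> rfl

theorem enc_sta_le {β : Type} [Ctx β] {B mo r u τ g k m e f v j T X S A : ℕ} {o : β}
    (h1 : mo ≤ B) (h2 : r ≤ B) (h3 : u ≤ B) (h4 : τ ≤ B) (h5 : g ≤ B)
    (h11 : k ≤ B) (h11' : m ≤ B) (h12 : e ≤ B) (h13 : f ≤ B) (h14 : v ≤ B)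
    (h15 : j ≤ B) (h16 : T ≤ B) (h17 : X ≤ B) (h18 : S ≤ B) (h19 : A ≤ B)
    (h20 : ∀ i, Ctx.enc o i ≤ B) (i : ℕ) :
    Ctx.enc (((mo, r, u), (τ, g), (k, m, e, f, v, j, T), (X, S, A), o) : Sta β) i ≤ B := by
  refine enc_prod_le (enc_prod_le (enc_nat_le h1) (enc_prod_le (enc_nat_le h2)
    (enc_nat_le h3))) (enc_prod_le (enc_prod_le (enc_nat_le h4) (enc_nat_le h5))
      (enc_prod_le (enc_prod_le (enc_nat_le h11)
          (enc_prod_le (enc_nat_le h11') (enc_prod_le (enc_nat_le h12)
            (enc_prod_le (enc_nat_le h13) (enc_prod_le (enc_nat_le h14)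
              (enc_prod_le (enc_nat_le h15) (enc_nat_le h16)))))))
        (enc_prod_le (enc_prod_le (enc_nat_le h17)
                (enc_prod_le (enc_nat_le h18) (enc_nat_le h19))) h20))) i

theorem num_lt (w : List Bool) : num w < 2 ^ (w.length + 1) := by
  induction w with
  | nil => simp [num]
  | cons a w ih =>
    rw [num, List.length_cons, pow_succ]
    have h1 : a.toNat ≤ 1 := Bool.toNat_le _
    omega

/-- **FB.** -/
theorem gFB : GoalFB := by
  intro β _ M hM w B hB hj x hI
  have hPB := Pool.Agent.Helper85.CTG.gPB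
  have hWFD := Pool.Agent.Helper94.CTG.gWFD
  have hOK := Pool.Agent.Helper53.CTG.ok9
  -- `B` is large
  have hB4 : 4 < B := by
    have h1 := (hj 0 (by intro i hi; omega)).1
    set o := M.orun (num w) 0 with ho
    have h2 := hPB (M.N o) (M.q o) (M.b o) (M.c o) (hM.hq o) (hM.hN o) (hM.hb o) (hM.hc o)
    obtain ⟨p1, p2, p3, p4, p5, p6, p7, p8, p9, p10, p11, p12, p13, p14, p15, p16, p17, p18, p19,
      p20, p21, p22⟩ := h2
    rw [hM.hW o] at h1
    omega
  have hz : ∀ i, Ctx.enc (zb : β) i ≤ B - 1 := fun i => by rw [enc_zb]; exact Nat.zero_le _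
  have fin : ∀ {x : Sta β}, (∀ i, Ctx.enc x i ≤ B - 1) → ∀ i, Ctx.enc x i < B := fun h i => by
    have := h i
    omega
  cases hI with
  | rej =>
    exact fin (enc_sta_le (by omega) (by omega) (by omega) (by omega) (by omega) (by omega)
      (by omega) (by omega) (by omega) (by omega) (by omega) (by omega) (by omega) (by omega)
      (by omega) hz)
  | m0 u hu =>
    have e1 := num_lt (w.take u)
    have e2 : (w.take u).length ≤ w.length := by
      rw [List.length_take]
      exact min_le_right _ _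
    have e3 : 2 ^ ((w.take u).length + 1) ≤ 2 ^ (w.length + 1) :=
      Nat.pow_le_pow_right (by norm_num) (by omega)
    have e4 : 2 ^ u ≤ 2 ^ (w.length + 1) := Nat.pow_le_pow_right (by norm_num) (by omega)
    have e5 : w.length + 1 < 2 ^ (w.length + 1) := Nat.lt_two_pow_self
    have e6 : 0 < 2 ^ u := Nat.two_pow_pos u
    exact fin (enc_sta_le (by omega) (by omega) (by omega) (by omega) (by omega) (by omega)
      (by omega) (by omega) (by omega) (by omega) (by omega) (by omega) (by omega) (by omega)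
      (by omega) hz)
  | m1 i h =>
    have h1 := (hj i h).2
    exact fin (enc_sta_le (by omega) (by omega) (by omega) (by omega) (by omega) (by omega)
      (by omega) (by omega) (by omega) (by omega) (by omega) (by omega) (by omega) (by omega)
      (by omega) (fun t => by have := h1 t; omega))
  | m3 h =>
    exact fin (enc_sta_le (by omega) (by omega) (by omega) (by omega) (by omega) (by omega)
      (by omega) (by omega) (by omega) (by omega) (by omega) (by omega) (by omega) (by omega)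
      (by omega) hz)
  | m2 i ρ u τ g D X S A o ho h hρ hτ hu hg hD hX hS hC =>
    obtain ⟨h1, h2⟩ := hj i (fun t ht => h t ht.le)
    rw [← ho] at h1 h2
    rw [hM.hW o] at h1
    have hq := hM.hq o
    have hN := hM.hN o
    have hb := hM.hb o
    have hc := hM.hc o
    obtain ⟨p1, p2, p3, p4, p5, p6, p7, p8, p9, p10, p11, p12, p13, p14, p15, p16, p17, p18, p19,
      p20, p21, p22⟩ := hPB (M.N o) (M.q o) (M.b o) (M.c o) hq hN hb hc
    have e2 : Et (M.N o) (M.q o) (M.b o) (M.c o) < 2 ^ Et (M.N o) (M.q o) (M.b o) (M.c o) :=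
      Nat.lt_two_pow_self
    -- the stack of arguments
    have hA : A < 2 ^ (M.c o * (Hb (M.N o) (M.q o) + 2)) := by
      obtain ⟨γ, hγ, hr⟩ := hC
      have hK : (gadC (M.b o) (M.W o)).K ^ 3 = 8 ^ M.b o := by
        show (2 ^ M.b o) ^ 3 = 8 ^ M.b o
        rw [← pow_mul, mul_comm, pow_mul]
        norm_num
      have htab : TabOK (gadC (M.b o) (M.W o)) (M.t o) (M.c o) :=
        ⟨fun m v x y z => hM.ht o m v x y z, Nat.pow_le_pow_right (by norm_num) hc⟩
      refine (Pool.Agent.Helper53.CTG.diOK (gadC (M.b o) (M.W o))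
        (hOK (M.b o) _ hb (by rw [hM.hW o]; exact p8)) (M.tst o ρ)
        (M.t o) (M.N o) (M.q o) (M.c o) τ A γ (fun _ => (0, 0))
        (toF (M.N o) (M.q o) (M.b o) X S)
        htab hq hN (fun τ' => by rw [hK]; exact hγ τ') (fun j => ⟨?_, rfl⟩) hτ hr).2.2
      show (0 : ℕ) < (36 * M.b o + Pool.Agent.Helper53.CTG.Rb (M.b o)) ^ (4 * M.b o + 2)
      have : 0 < 36 * M.b o + Pool.Agent.Helper53.CTG.Rb (M.b o) := by omega
      positivity
    have e5 : g < 2 ^ Et (M.N o) (M.q o) (M.b o) (M.c o) := by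
      refine lt_of_lt_of_le hg (le_trans (Nat.pow_le_pow_right (by norm_num)
        (show u - Nt (M.N o) (M.q o) ≤ 3 * M.b o by omega)) p8)
    have hW : WF (M.q o) (2 ^ (min u (Nt (M.N o) (M.q o))) * 2) D := by
      rw [hD]
      exact hWFD.2.1 (M.q o) 2 (root (M.N o) (M.q o)) (Nt (M.N o) (M.q o)) τ _ hq
        (hWFD.2.2 (M.N o) (M.q o) hq) (min_le_right _ _)
    have e9 : 2 ^ (min u (Nt (M.N o) (M.q o))) * 2 ≤ 2 ^ (Nt (M.N o) (M.q o) + 1) := by
      rw [pow_succ]
      exact Nat.mul_le_mul_right _ (Nat.pow_le_pow_right (by norm_num) (min_le_right _ _))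
    have w1 := hW.hk
    have w1a := hW.hm
    have w2 := hW.he
    have w3 := hW.hf
    have w4 := hW.hv
    have w5 := hW.hT
    have w6 : D.i ≤ 3 * M.q o + 4 := by
      rcases hW.hi with h | h | h <;> omega
    obtain ⟨k, m, e, f, v, j, T⟩ := D
    have w1' : k ≤ 5 := w1
    have w1a' : m ≤ 2 := w1a
    have w2' : e ≤ 3 * M.q o + 3 := w2
    have w3' : f + 1 ≤ 3 * M.q o + 3 := w3
    have w4' : v < 2 ^ (min u (Nt (M.N o) (M.q o))) * 2 := w4
    have w5' : T ≤ 2 := w5
    have w6' : j ≤ 3 * M.q o + 4 := w6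
    exact fin (enc_sta_le (by omega) (by omega) (by omega) (by omega) (by omega) (by omega)
      (by omega) (by omega) (by omega) (by omega) (by omega) (by omega) (by omega) (by omega)
      (by omega) (fun t => by have := h2 t; omega))

end Pool.Agent.Helper51.UR
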